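import Pool.Agent.Helper76.P11.StC
import Pool.Agent.Helper78.W3.StC

/-!
# Module DimK of project P11 (level `11^n`): dimensions by fixed points
-/

set_option autoImplicit false

open Pool.Agent.Helper76.P11

namespace Pool.Agent.Helper40.P11

private instance : Fact (Nat.Prime 11) := ⟨by norm_num⟩

/-- the translation by `c` times `11^(m-1)` -/
private def T (m : ℕ) (c : ZMod 11) : ZMod (11 ^ m) := ((c.val : ℕ) : ZMod (11 ^ m)) * 11 ^ (m - 1)

private lemma h7 (m : ℕ) : (11 : ZMod (11 ^ m)) ^ m = 0 := by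
  have := ZMod.natCast_self (11 ^ m)
  push_cast at this
  exact this

private lemma h7t (m : ℕ) (hm : 1 ≤ m) : (11 : ZMod (11 ^ m)) * 11 ^ (m - 1) = 0 := by
  rw [← pow_succ', Nat.sub_add_cancel hm]
  exact h7 m

private lemma T_zero (m : ℕ) : T m 0 = 0 := by simp [T]

private lemma T_add (m : ℕ) (hm : 1 ≤ m) (a b : ZMod 11) : T m (a + b) = T m a + T m b := by
  unfold T
  rw [ZMod.val_add]
  have h1 := Nat.mod_add_div (a.val + b.val) 11
  have h2 : (((a.val + b.val) % 11 + 11 * ((a.val + b.val) / 11) : ℕ) : ZMod (11 ^ m)) =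
      ((a.val + b.val : ℕ) : ZMod (11 ^ m)) := by rw [h1]
  push_cast at h2
  have h3 := h7t m hm
  linear_combination (11 : ZMod (11 ^ m)) ^ (m - 1) * h2 -
    (((a.val + b.val) / 11 : ℕ) : ZMod (11 ^ m)) * h3

private lemma T_mul (m : ℕ) (hm : 1 ≤ m) (s : ℤ) (c : ZMod 11) :
    T m ((s : ZMod 11) * c) = (s : ZMod (11 ^ m)) * T m c := by
  let Th : ZMod 11 →+ ZMod (11 ^ m) :=
    { toFun := T m, map_zero' := T_zero m, map_add' := T_add m hm }
  have h : Th (s • c) = s • Th c := map_zsmul Th s c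
  rw [zsmul_eq_mul, zsmul_eq_mul] at h
  exact h

private lemma T_inj (m : ℕ) (hm : 1 ≤ m) (a : ZMod 11) (h : T m a = 0) : a = 0 := by
  have h4 : ((a.val * 11 ^ (m - 1) : ℕ) : ZMod (11 ^ m)) = 0 := by
    push_cast
    exact h
  rw [ZMod.natCast_eq_zero_iff] at h4
  have h6 : 11 ^ m = 11 * 11 ^ (m - 1) := by
    rw [← pow_succ', Nat.sub_add_cancel hm]
  rw [h6] at h4
  have h7 : 11 ∣ a.val := Nat.dvd_of_mul_dvd_mul_right (by positivity) h4
  have h8 : a.val < 11 := ZMod.val_lt a
  have h9 : a.val = 0 := Nat.eq_zero_of_dvd_of_lt h7 h8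
  exact (ZMod.val_eq_zero a).1 h9

private lemma ne_of {s : ℤ} (h : ¬ (11 : ℤ) ∣ s) : (s : ZMod 11) ≠ 0 := by
  intro h0
  exact h ((ZMod.intCast_zmod_eq_zero_iff_dvd s 11).1 h0)

private lemma unit_of (m : ℕ) {s : ℤ} (h : ¬ (11 : ℤ) ∣ s) : IsUnit (s : ZMod (11 ^ m)) := by
  have h1 : IsCoprime (11 : ℤ) s := by
    have h2 := (Nat.prime_iff_prime_int.1 (by norm_num : Nat.Prime 11)).coprime_iff_not_dvd (n := s)
    exact_mod_cast h2.2 (by exact_mod_cast h)
  obtain ⟨a, b, hab⟩ := (h1.symm.pow_right (n := m))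
  have h3 : ((a * s + b * 11 ^ m : ℤ) : ZMod (11 ^ m)) = 1 := by rw [hab]; simp
  push_cast at h3
  rw [h7, mul_zero, add_zero] at h3
  exact IsUnit.of_mul_eq_one (a : ZMod (11 ^ m)) (by rw [mul_comm]; exact h3)

/-- the translations of the plane -/
private def tau {m : ℕ} (c : ZMod 11 × ZMod 11) (p : Pt m) : Pt m := (p.1 + T m c.1, p.2 + T m c.2)

private lemma tau_tau {m : ℕ} (hm : 1 ≤ m) (c d : ZMod 11 × ZMod 11) (p : Pt m) :
    tau c (tau d p) = tau (c + d) p := by
  unfold tau
  simp only [Prod.fst_add, Prod.snd_add, T_add m hm]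
  refine Prod.ext ?_ ?_ <;> simp only <;> ring

/-- the weights -/
private noncomputable def w (c : ZMod 11) : ℂ := (if c = 0 then 1 else 0) - 1 / 11

private noncomputable def W (c : ZMod 11 × ZMod 11) : ℂ := w c.1 * w c.2

private lemma w_mul {s : ZMod 11} (hs : s ≠ 0) (c : ZMod 11) : w (s * c) = w c := by
  simp [w, hs]

private lemma sum_w : ∑ c : ZMod 11, w c = 0 := by
  simp only [w, Finset.sum_sub_distrib, Finset.sum_ite_eq', Finset.mem_univ, if_true,
    Finset.sum_const, Finset.card_univ, ZMod.card]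
  norm_num

private lemma sum_ww : ∑ c : ZMod 11, w c * w c = 10 / 11 := by
  have h : ∀ c : ZMod 11, w c * w c = (if c = 0 then (9 / 11 : ℂ) else 0) + 1 / 121 := by
    intro c
    unfold w
    split_ifs <;> norm_num
  simp only [h, Finset.sum_add_distrib, Finset.sum_ite_eq', Finset.mem_univ, if_true,
    Finset.sum_const, Finset.card_univ, ZMod.card]
  norm_num

/-- the average -/
private noncomputable def Av {m : ℕ} (G : Pt m → ℂ) (p : Pt m) : ℂ :=
  ∑ c : ZMod 11 × ZMod 11, W c * G (tau c p)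

private lemma sum7 {m : ℕ} (f : ZMod (11 ^ m) → ℂ) (x : ZMod (11 ^ m)) :
    ∑ i ∈ Finset.range 11, f (x + i * 11 ^ (m - 1)) = ∑ c : ZMod 11, f (x + T m c) := by
  rw [Finset.sum_range]
  rfl

private lemma mem_anti {m : ℕ} (F : Pt m → ℂ) : F ∈ anti11 m ↔ ∀ p : Pt m,
    ∑ c : ZMod 11, F (tau (c, 0) p) = 0 ∧ ∑ c : ZMod 11, F (tau (0, c) p) = 0 := by
  have e1 : ∀ p : Pt m, ∑ i ∈ Finset.range 11, F (p.1 + i * 11 ^ (m - 1), p.2) =
      ∑ c : ZMod 11, F (tau (c, 0) p) := by
    intro p
    rw [sum7 (fun x => F (x, p.2)) p.1]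
    simp only [tau, T_zero, add_zero]
  have e2 : ∀ p : Pt m, ∑ i ∈ Finset.range 11, F (p.1, p.2 + i * 11 ^ (m - 1)) =
      ∑ c : ZMod 11, F (tau (0, c) p) := by
    intro p
    rw [sum7 (fun x => F (p.1, x)) p.2]
    simp only [tau, T_zero, add_zero]
  change (∀ p : Pt m, ∑ i ∈ Finset.range 11, F (p.1 + i * 11 ^ (m - 1), p.2) = 0 ∧
    ∑ i ∈ Finset.range 11, F (p.1, p.2 + i * 11 ^ (m - 1)) = 0) ↔ _
  simp only [e1, e2]

private lemma Av_anti {m : ℕ} (hm : 1 ≤ m) (G : Pt m → ℂ) : Av G ∈ anti11 m := by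
  rw [mem_anti]
  intro p
  constructor
  · have h1 : ∀ d : ZMod 11, Av G (tau (d, 0) p) =
        ∑ c : ZMod 11 × ZMod 11, W (c - (d, 0)) * G (tau c p) := by
      intro d
      unfold Av
      rw [← Equiv.sum_comp (Equiv.subRight ((d, 0) : ZMod 11 × ZMod 11))]
      refine Finset.sum_congr rfl fun c _ => ?_
      simp only [Equiv.subRight_apply]
      rw [tau_tau hm, sub_add_cancel]
    simp only [h1]
    rw [Finset.sum_comm]
    refine Finset.sum_eq_zero fun c _ => ?_
    rw [← Finset.sum_mul]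
    have h2 : ∑ d : ZMod 11, W (c - (d, 0)) = 0 := by
      simp only [W, Prod.fst_sub, Prod.snd_sub, sub_zero]
      have h3 := Equiv.sum_comp (Equiv.subLeft c.1) w
      simp only [Equiv.subLeft_apply] at h3
      rw [← Finset.sum_mul, h3, sum_w, zero_mul]
    rw [h2, zero_mul]
  · have h1 : ∀ d : ZMod 11, Av G (tau (0, d) p) =
        ∑ c : ZMod 11 × ZMod 11, W (c - (0, d)) * G (tau c p) := by
      intro d
      unfold Av
      rw [← Equiv.sum_comp (Equiv.subRight ((0, d) : ZMod 11 × ZMod 11))]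
      refine Finset.sum_congr rfl fun c _ => ?_
      simp only [Equiv.subRight_apply]
      rw [tau_tau hm, sub_add_cancel]
    simp only [h1]
    rw [Finset.sum_comm]
    refine Finset.sum_eq_zero fun c _ => ?_
    rw [← Finset.sum_mul]
    have h2 : ∑ d : ZMod 11, W (c - (0, d)) = 0 := by
      simp only [W, Prod.fst_sub, Prod.snd_sub, sub_zero]
      have h3 := Equiv.sum_comp (Equiv.subLeft c.2) w
      simp only [Equiv.subLeft_apply] at h3
      rw [← Finset.mul_sum, h3, sum_w, mul_zero]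
    rw [h2, zero_mul]

private lemma Av_id {m : ℕ} (hm : 1 ≤ m) (G : Pt m → ℂ) (hG : G ∈ anti11 m) (p : Pt m) :
    Av G p = G p := by
  rw [mem_anti] at hG
  have hw : ∀ f : ZMod 11 → ℂ, ∑ c : ZMod 11, f c = 0 → ∑ c : ZMod 11, w c * f c = f 0 := by
    intro f hf
    simp only [w, sub_mul, ite_mul, one_mul, zero_mul, Finset.sum_sub_distrib,
      Finset.sum_ite_eq', Finset.mem_univ, if_true]
    rw [← Finset.mul_sum, hf, mul_zero, sub_zero]
  unfold Av
  rw [Fintype.sum_prod_type]
  have h1 : ∀ c1 : ZMod 11, ∑ c2 : ZMod 11, W (c1, c2) * G (tau (c1, c2) p) =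
      w c1 * G (tau (c1, 0) p) := by
    intro c1
    have h2 := hw (fun c2 => G (tau (c1, c2) p)) (by
      have h3 := (hG (tau (c1, 0) p)).2
      simp only [tau_tau hm] at h3
      simpa using h3)
    simp only [W, mul_assoc]
    rw [← Finset.mul_sum, h2]
  simp only [h1]
  rw [hw (fun c1 => G (tau (c1, 0) p)) (hG p).1]
  congr 1
  simp [tau, T_zero]

private lemma dv_T {m : ℕ} (hm : 1 ≤ m) {s : ℤ} {φ : ZMod (11 ^ m) → ZMod (11 ^ m)} (h : Dv s φ)
    (c : ZMod 11) (x : ZMod (11 ^ m)) : φ (x + T m c) = φ x + s * T m c := by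
  have h1 := h (m - 1) (x + T m c) x ⟨((c.val : ℕ) : ZMod (11 ^ m)), by unfold T; ring⟩
  rw [Nat.sub_add_cancel hm, h7, zero_dvd_iff] at h1
  linear_combination h1

private lemma ml {a : ZMod 11} (ha : a ≠ 0) (x : ZMod 11) : Equiv.mulLeft₀ a ha x = a * x := rfl

private lemma law {m n : ℕ} (hm : 1 ≤ m) {r : Pt m → Pt m} (h : Ty n r) :
    ∃ L : Equiv.Perm (ZMod 11 × ZMod 11), (∀ c p, r (tau c p) = tau (L c) (r p)) ∧
      ∀ c, W (L c) = W c := by
  rcases h with ⟨_, s, s', φ, φ', hs, _, hs', _, hφ, hφ', hr⟩ | ⟨_, s, s', ψ, ψ', hs, hs', hψ, hψ', hr⟩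
  · refine ⟨Equiv.prodCongr (Equiv.mulLeft₀ (s : ZMod 11) (ne_of hs))
      (Equiv.mulLeft₀ (s' : ZMod 11) (ne_of hs')), ?_, ?_⟩
    · intro c p
      rw [hr, hr]
      simp only [tau, Equiv.prodCongr_apply, Prod.map_fst, Prod.map_snd, ml,
        T_mul m hm, dv_T hm hφ, dv_T hm hφ']
    · intro c
      simp only [W, Equiv.prodCongr_apply, Prod.map_fst, Prod.map_snd, ml,
        w_mul (ne_of hs), w_mul (ne_of hs')]
  · refine ⟨(Equiv.prodComm _ _).trans (Equiv.prodCongr (Equiv.mulLeft₀ (s : ZMod 11) (ne_of hs))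
      (Equiv.mulLeft₀ (s' : ZMod 11) (ne_of hs'))), ?_, ?_⟩
    · intro c p
      rw [hr, hr]
      simp only [tau, Equiv.trans_apply, Equiv.prodComm_apply, Equiv.prodCongr_apply, Prod.map_fst,
        Prod.map_snd, ml, Prod.fst_swap, Prod.snd_swap, T_mul m hm, dv_T hm hψ,
        dv_T hm hψ']
    · intro c
      simp only [W, Equiv.trans_apply, Equiv.prodComm_apply, Equiv.prodCongr_apply, Prod.map_fst,
        Prod.map_snd, ml, Prod.fst_swap, Prod.snd_swap, w_mul (ne_of hs),
        w_mul (ne_of hs')]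
      ring

private lemma Av_comp {m n : ℕ} (hm : 1 ≤ m) {r : Pt m → Pt m} (h : Ty n r) (G : Pt m → ℂ)
    (p : Pt m) : Av G (r p) = Av (fun q => G (r q)) p := by
  obtain ⟨L, hL, hW⟩ := law hm h
  unfold Av
  simp only [hL]
  rw [← Equiv.sum_comp L]
  refine Finset.sum_congr rfl fun c _ => ?_
  rw [hW]

private lemma comp_anti {m n : ℕ} (hm : 1 ≤ m) {r : Pt m → Pt m} (h : Ty n r) {F : Pt m → ℂ}
    (hF : F ∈ anti11 m) : (fun p => F (r p)) ∈ anti11 m := by
  have e : (fun p => F (r p)) = Av (fun q => F (r q)) := by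
    funext p
    rw [← Av_comp hm h F p, Av_id hm F hF]
  rw [e]
  exact Av_anti hm _

/-! ### Fixed points -/

private noncomputable def Cn {m : ℕ} (f : Pt m → Pt m) : ℂ :=
  ∑ c : ZMod 11 × ZMod 11, W c * ((Finset.univ.filter fun p : Pt m => f (tau c p) = p).card : ℂ)

private lemma card_graph {Z : Type} [Fintype Z] [DecidableEq Z] (f : Z × Z → Z × Z) (g : Z → Z)
    (h : ∀ x y, f (x, y) = (x, y) ↔ x = g y) :
    (Finset.univ.filter fun p : Z × Z => f p = p).card = Fintype.card Z := by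
  have h1 : (Finset.univ.filter fun p : Z × Z => f p = p) =
      Finset.univ.image fun y : Z => (g y, y) := by
    ext ⟨x, y⟩
    simp only [Finset.mem_filter, Finset.mem_univ, true_and, Finset.mem_image, Prod.mk.injEq, h]
    constructor
    · intro hx
      exact ⟨y, hx.symm, rfl⟩
    · rintro ⟨z, hz, rfl⟩
      exact hz.symm
  rw [h1, Finset.card_image_of_injective, Finset.card_univ]
  intro y y' hy
  exact (Prod.mk.inj hy).2

private lemma card_none {Z : Type} [Fintype Z] [DecidableEq Z] (f : Z × Z → Z × Z)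
    (h : ∀ x y, f (x, y) ≠ (x, y)) :
    (Finset.univ.filter fun p : Z × Z => f p = p).card = 0 := by
  rw [Finset.card_eq_zero, Finset.filter_eq_empty_iff]
  rintro ⟨x, y⟩ _
  exact h x y

private lemma card_prod {Z : Type} [Fintype Z] [DecidableEq Z] (f : Z × Z → Z × Z)
    (A B : Finset Z) (h : ∀ x y, f (x, y) = (x, y) ↔ x ∈ A ∧ y ∈ B) :
    (Finset.univ.filter fun p : Z × Z => f p = p).card = A.card * B.card := by
  rw [← Finset.card_product]
  congr 1
  ext ⟨x, y⟩
  simp only [Finset.mem_filter, Finset.mem_univ, true_and, Finset.mem_product, h]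

private lemma count0 {m : ℕ} (hm : 1 ≤ m) : Cn (fun p : Pt m => p) = 100 * 121 ^ (m - 1) := by
  unfold Cn
  have h1 : ∀ c : ZMod 11 × ZMod 11, ((Finset.univ.filter fun p : Pt m => tau c p = p).card : ℂ) =
      if c = 0 then ((11 ^ m : ℕ) : ℂ) * ((11 ^ m : ℕ) : ℂ) else 0 := by
    intro c
    split_ifs with hc
    · rw [card_prod _ Finset.univ Finset.univ, Finset.card_univ, ZMod.card]
      · push_cast; ring
      · intro x y
        simp [hc, tau, T_zero]
    · rw [card_none]
      · simp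
      · intro x y h
        apply hc
        have h2 := (Prod.mk.inj h).1
        have h3 := (Prod.mk.inj h).2
        simp only [add_eq_left] at h2 h3
        exact Prod.ext (T_inj m hm _ h2) (T_inj m hm _ h3)
  simp only [h1, mul_ite, mul_zero, Finset.sum_ite_eq', Finset.mem_univ, if_true]
  have h2 : W 0 = 100 / 121 := by
    simp only [W, w, Prod.fst_zero, Prod.snd_zero, if_true]
    norm_num
  have h3 : ((11 ^ m : ℕ) : ℂ) = 11 * 11 ^ (m - 1) := by
    rw [← pow_succ', Nat.sub_add_cancel hm]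
    push_cast
    ring
  have h4 : (121 : ℂ) ^ (m - 1) = 11 ^ (m - 1) * 11 ^ (m - 1) := by
    rw [← mul_pow]; norm_num
  rw [h2, h3, h4]
  ring

private lemma inj0 {m : ℕ} {s : ℤ} {φ : ZMod (11 ^ m) → ZMod (11 ^ m)} (hs : ¬ (11 : ℤ) ∣ s - 1)
    (h : Dv s φ) : Function.Injective fun x : ZMod (11 ^ m) => x - φ x := by
  intro x x' hxx
  have hxx' : x - φ x = x' - φ x' := hxx
  have hu : IsUnit (-((s - 1 : ℤ) : ZMod (11 ^ m))) := (unit_of m hs).neg
  have h1 : ∀ i : ℕ, (11 : ZMod (11 ^ m)) ^ i ∣ x - x' := by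
    intro i
    induction i with
    | zero => simp
    | succ i ih =>
      have h2 := h i x x' ih
      have h3 : φ x - φ x' - (s : ZMod (11 ^ m)) * (x - x') =
          (-((s - 1 : ℤ) : ZMod (11 ^ m))) * (x - x') := by
        push_cast
        linear_combination -hxx'
      rw [h3] at h2
      exact (IsUnit.dvd_mul_left hu).1 h2
  have h4 := h1 m
  rw [h7, zero_dvd_iff] at h4
  exact sub_eq_zero.1 h4

private lemma fix0 {m : ℕ} {s : ℤ} {φ : ZMod (11 ^ m) → ZMod (11 ^ m)} (hm : 1 ≤ m)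
    (hs : ¬ (11 : ℤ) ∣ s - 1) (h : Dv s φ)
    (c : ZMod 11) : ∃ x0, ∀ x, φ (x + T m c) = x ↔ x ∈ ({x0} : Finset (ZMod (11 ^ m))) := by
  have hinj := inj0 hs h
  have hsur : Function.Surjective fun x : ZMod (11 ^ m) => x - φ x :=
    Finite.surjective_of_injective hinj
  obtain ⟨x0, hx0⟩ := hsur (s * T m c)
  have hx0' : x0 - φ x0 = s * T m c := hx0
  refine ⟨x0, fun x => ?_⟩
  rw [dv_T hm h, Finset.mem_singleton]
  constructor
  · intro hx
    apply hinj
    show x - φ x = x0 - φ x0
    rw [hx0']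
    linear_combination -hx
  · intro hx
    rw [hx]
    linear_combination -hx0'

private lemma count {m n : ℕ} (hm : 1 ≤ m) {r : Pt m → Pt m} (h : Ty n r)
    (hr2 : n = 1 → ∀ p, r (r p) = p) : Cn r = n * (10 * 11 ^ (m - 1)) := by
  unfold Cn
  rcases h with ⟨hn, s, s', φ, φ', _, hs, _, hs', hφ, hφ', hr⟩ | ⟨hn, s, s', ψ, ψ', hs, hs', hψ, hψ', hr⟩
  · have h1 : ∀ c : ZMod 11 × ZMod 11,
        ((Finset.univ.filter fun p : Pt m => r (tau c p) = p).card : ℂ) = 1 := by
      intro c
      obtain ⟨x0, hx0⟩ := fix0 hm hs hφ c.1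
      obtain ⟨y0, hy0⟩ := fix0 hm hs' hφ' c.2
      rw [card_prod _ {x0} {y0}]
      · simp
      · intro x y
        rw [hr]
        simp only [tau, Prod.mk.injEq, hx0, hy0]
    simp only [h1, mul_one]
    rw [Fintype.sum_prod_type]
    simp only [W]
    rw [← Finset.sum_mul_sum, sum_w, hn]
    simp
  · have h1 : ∀ c : ZMod 11 × ZMod 11,
        ((Finset.univ.filter fun p : Pt m => r (tau c p) = p).card : ℂ) =
          if c.2 = -((s' : ZMod 11) * c.1) then ((11 ^ m : ℕ) : ℂ) else 0 := by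
      intro c
      have hinv : ∀ y, ψ' (ψ y) = y := by
        intro y
        have h2 := hr2 hn (0, y)
        rw [hr, hr] at h2
        exact (Prod.mk.inj h2).2
      have hkey : ∀ y, ψ' (ψ (y + T m c.2) + T m c.1) =
          y + (T m c.2 + T m ((s' : ZMod 11) * c.1)) := by
        intro y
        rw [dv_T hm hψ', hinv, T_mul m hm]
        ring
      split_ifs with hc
      · rw [card_graph _ (fun y => ψ (y + T m c.2)), ZMod.card]
        intro x y
        rw [hr]
        simp only [tau, Prod.mk.injEq]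
        constructor
        · intro h; exact h.1.symm
        · intro h
          refine ⟨h.symm, ?_⟩
          rw [h, hkey, ← T_add m hm, hc, neg_add_cancel, T_zero, add_zero]
      · rw [card_none]
        · simp
        · intro x y h
          rw [hr] at h
          simp only [tau, Prod.mk.injEq] at h
          apply hc
          have h3 := h.2
          rw [← h.1, hkey] at h3
          have h4 : T m (c.2 + (s' : ZMod 11) * c.1) = 0 := by
            rw [T_add m hm]
            linear_combination h3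
          have h6 := T_inj m hm _ h4
          exact eq_neg_of_add_eq_zero_left h6
    simp only [h1]
    rw [Fintype.sum_prod_type]
    simp only [mul_ite, mul_zero, Finset.sum_ite_eq', Finset.mem_univ, if_true, W]
    have hns : (-(s' : ZMod 11)) ≠ 0 := neg_ne_zero.2 (ne_of hs')
    have h8 : ∀ c : ZMod 11, w (-((s' : ZMod 11) * c)) = w c := by
      intro c
      rw [← neg_mul, w_mul hns]
    simp only [h8]
    rw [← Finset.sum_mul, sum_ww, hn]
    have h3 : ((11 ^ m : ℕ) : ℂ) = 11 * 11 ^ (m - 1) := by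
      rw [← pow_succ', Nat.sub_add_cancel hm]
      push_cast
      ring
    rw [h3]
    push_cast
    ring

private lemma gen (hq : Pool.Agent.Helper78.W3.S3Trq) {m : ℕ} (hm : 1 ≤ m) (N : ℕ)
    (g : Fin N → Pt m → Pt m) (ε : Fin N → ℂ) (κ : ℂ) (V : Submodule ℂ (Pt m → ℂ))
    (hg : ∀ i G p, Av G (g i p) = Av (fun q => G (g i q)) p) (hV : V ≤ anti11 m)
    (h1 : ∀ F ∈ anti11 m, (fun p => κ * ∑ i, ε i * F (g i p)) ∈ V)
    (h2 : ∀ F ∈ V, ∀ p, κ * ∑ i, ε i * F (g i p) = F p) :
    (Module.finrank ℂ V : ℂ) = κ * ∑ i, ε i * Cn (g i) := by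
  have hval : ∀ (F : Pt m → ℂ) (p : Pt m),
      ∑ h : Fin N × (ZMod 11 × ZMod 11), (κ * ε h.1 * W h.2) * F (g h.1 (tau h.2 p)) =
      κ * ∑ i, ε i * Av F (g i p) := by
    intro F p
    rw [Fintype.sum_prod_type, Finset.mul_sum]
    refine Finset.sum_congr rfl fun i _ => ?_
    rw [hg]
    unfold Av
    rw [Finset.mul_sum, Finset.mul_sum]
    refine Finset.sum_congr rfl fun c _ => ?_
    ring
  have key := hq (Pt m) inferInstance inferInstance (Fin N × (ZMod 11 × ZMod 11)) inferInstance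
    (fun h p => g h.1 (tau h.2 p)) (fun h => κ * ε h.1 * W h.2) V ?_ ?_
  · rw [key, Fintype.sum_prod_type, Finset.mul_sum]
    refine Finset.sum_congr rfl fun i _ => ?_
    unfold Cn
    rw [Finset.mul_sum, Finset.mul_sum]
    refine Finset.sum_congr rfl fun c _ => ?_
    ring
  · intro F
    have hP : (fun i => ∑ h : Fin N × (ZMod 11 × ZMod 11), (κ * ε h.1 * W h.2) *
        F (g h.1 (tau h.2 i))) = fun p => κ * ∑ i, ε i * Av F (g i p) := by
      funext p
      exact hval F p
    rw [hP]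
    exact h1 (Av F) (Av_anti hm F)
  · intro F hF p
    rw [hval]
    have e : Av F = F := funext fun q => Av_id hm F (hV hF) q
    rw [e]
    exact h2 F hF p

theorem hDimK : StHDimK := by
  intro hq m hm
  have c0 := count0 (m := m) hm
  refine ⟨?_, ?_, ?_⟩
  · have key := gen hq hm 1 (fun _ p => p) (fun _ => 1) 1 (anti11 m) (fun _ _ _ => rfl) le_rfl
      (fun F hF => by simpa using hF) (fun F _ p => by simp)
    rw [Fin.sum_univ_one, c0] at key
    have h3 : (Module.finrank ℂ (anti11 m) : ℂ) = ((100 * 121 ^ (m - 1) : ℕ) : ℂ) := by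
      rw [key]
      push_cast
      ring
    exact_mod_cast h3
  · intro r e hI hr he
    have he2 : (e : ℂ) * e = 1 := by
      rcases he with h | h <;> rw [h] <;> norm_num
    have key := gen hq hm 2 ![fun p => p, r] ![1, (e : ℂ)] (1 / 2) (inv1 r (e : ℂ)) ?_
      (fun F hF => hF.1) ?_ ?_
    · rw [Fin.sum_univ_two] at key
      simp only [Matrix.cons_val_zero, Matrix.cons_val_one] at key
      rw [c0, count hm hr (fun _ => hI)] at key
      have h4 : ((2 * (Module.finrank ℂ (inv1 r (e : ℂ)) : ℤ) : ℤ) : ℂ) =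
          ((100 * 121 ^ (m - 1) + e * (10 * 11 ^ (m - 1)) : ℤ) : ℂ) := by
        push_cast
        rw [key]
        push_cast
        ring
      exact_mod_cast h4
    · intro i
      fin_cases i
      · intro G p; rfl
      · intro G p; exact Av_comp hm hr G p
    · intro F hF
      refine ⟨?_, ?_⟩
      · have e1 : (fun p => (1 / 2 : ℂ) * ∑ i : Fin 2, (![1, (e : ℂ)] : Fin 2 → ℂ) i *
            F ((![fun p => p, r] : Fin 2 → Pt m → Pt m) i p)) =
            (1 / 2 : ℂ) • (F + (e : ℂ) • fun p => F (r p)) := by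
          funext p
          rw [Fin.sum_univ_two]
          simp only [Matrix.cons_val_zero, Matrix.cons_val_one, Pi.smul_apply, Pi.add_apply,
            smul_eq_mul, one_mul]
        rw [e1]
        exact (anti11 m).smul_mem _ ((anti11 m).add_mem hF ((anti11 m).smul_mem _ (comp_anti hm hr hF)))
      · intro p
        simp only [Fin.sum_univ_two, Matrix.cons_val_zero, Matrix.cons_val_one]
        rw [hI p]
        linear_combination (-(1 / 2 : ℂ) * F (r p)) * he2
    · rintro F ⟨hF, hF2⟩ p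
      simp only [Fin.sum_univ_two, Matrix.cons_val_zero, Matrix.cons_val_one]
      rw [hF2 p]
      linear_combination (1 / 2 * F p) * he2
  · intro r r' n n' n'' e e' hK hr hr' hrr he he'
    obtain ⟨k1, k2, k3⟩ := hK
    have he2 : (e : ℂ) * e = 1 := by
      rcases he with h | h <;> rw [h] <;> norm_num
    have he2' : (e' : ℂ) * e' = 1 := by
      rcases he' with h | h <;> rw [h] <;> norm_num
    have key := gen hq hm 4 ![fun p => p, r, r', fun p => r (r' p)] ![1, (e : ℂ), e', e * e'] (1 / 4)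
      (inv11 r r' (e : ℂ) (e' : ℂ)) ?_ (fun F hF => hF.1) ?_ ?_
    · rw [Fin.sum_univ_four] at key
      simp only [Matrix.cons_val_zero, Matrix.cons_val_one, Matrix.cons_val] at key
      rw [c0, count hm hr (fun _ => k1), count hm hr' (fun _ => k2), count hm hrr (fun _ p => by
        show r (r' (r (r' p))) = p
        rw [← k3, k1, k2])] at key
      have h4 : ((4 * (Module.finrank ℂ (inv11 r r' (e : ℂ) (e' : ℂ)) : ℤ) : ℤ) : ℂ) =
          ((100 * 121 ^ (m - 1) + (e * n + e' * n' + e * e' * n'') * (10 * 11 ^ (m - 1)) : ℤ) : ℂ) := by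
        push_cast
        rw [key]
        ring
      exact_mod_cast h4
    · intro i
      fin_cases i
      · intro G p; rfl
      · intro G p; exact Av_comp hm hr G p
      · intro G p; exact Av_comp hm hr' G p
      · intro G p; exact Av_comp hm hrr G p
    · intro F hF
      refine ⟨?_, ?_⟩
      · have e1 : (fun p => (1 / 4 : ℂ) * ∑ i : Fin 4, (![1, (e : ℂ), e', e * e'] : Fin 4 → ℂ) i *
            F ((![fun p => p, r, r', fun p => r (r' p)] : Fin 4 → Pt m → Pt m) i p)) =
            (1 / 4 : ℂ) • (F + (e : ℂ) • (fun p => F (r p)) + (e' : ℂ) • (fun p => F (r' p)) +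
              ((e : ℂ) * e') • fun p => F (r (r' p))) := by
          funext p
          rw [Fin.sum_univ_four]
          simp only [Matrix.cons_val_zero, Matrix.cons_val_one, Matrix.cons_val, Pi.smul_apply,
            Pi.add_apply, smul_eq_mul, one_mul]
        rw [e1]
        exact (anti11 m).smul_mem _ ((anti11 m).add_mem ((anti11 m).add_mem ((anti11 m).add_mem hF
          ((anti11 m).smul_mem _ (comp_anti hm hr hF))) ((anti11 m).smul_mem _ (comp_anti hm hr' hF)))
          ((anti11 m).smul_mem _ (comp_anti hm hrr hF)))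
      · intro p
        constructor
        · simp only [Fin.sum_univ_four, Matrix.cons_val_zero, Matrix.cons_val_one, Matrix.cons_val]
          rw [k1 p, ← k3 p, k1 (r' p)]
          linear_combination (-(1 / 4 : ℂ) * (F (r p) + e' * F (r (r' p)))) * he2
        · simp only [Fin.sum_univ_four, Matrix.cons_val_zero, Matrix.cons_val_one, Matrix.cons_val]
          rw [k2 p]
          linear_combination (-(1 / 4 : ℂ) * (F (r' p) + e * F (r (r' p)))) * he2'
    · rintro F ⟨hF, hF2⟩ p
      simp only [Fin.sum_univ_four, Matrix.cons_val_zero, Matrix.cons_val_one, Matrix.cons_val]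
      rw [(hF2 (r' p)).1, (hF2 p).2, (hF2 p).1]
      linear_combination (1 / 2 * F p) * he2 + (1 / 4 * F p * (1 + (e : ℂ) * e)) * he2'

end Pool.Agent.Helper40.P11
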